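import Pool.Agent.N180.MO.Stm

/-!
# Cohomology rings of twisted derived equivalent hyperkähler varieties: statements
-/

open CategoryTheory AlgebraicGeometry TensorProduct

universe u v

namespace Pool.Agent.N212.TWS

open Pool.Agent.N180.MOS

/-- The operators `g a g⁻¹` with `a` in `S`, where `g` is the multiplication by the exponential of
`x`. -/
def twist {F A : Type*} [Field F] [Ring A] [Algebra F A] (x : A) (S : Set (Module.End F A)) :
    Set (Module.End F A) :=
  {a' | ∃ a ∈ S, ∃ g, IsExp (LinearMap.mulLeft F x) g ∧ a' ∘ₗ g = g ∘ₗ a}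

section Data

variable {K A B : Type v} [Field K] [Ring A] [Algebra K A] [Ring B] [Algebra K B]

/-- The vector `(0, x, 0)` of the extended Mukai space. -/
def vecH {G : ℕ → Submodule K A} (x : G 2) : Mk G := (0, x, 0)

variable [Algebra K ℂ]

/-- The action of the exponential of the class `x` in `H^2` on the complex extended Mukai space (the
exponential of `x ∧ β`, which takes `α` to `α + x + q(x, x)/2 β`). -/
noncomputable def expH {G : ℕ → Submodule K A} (b : Form K (Mk G)) (x : G 2)
    (z : ℂ ⊗[K] Mk G) : ℂ ⊗[K] Mk G :=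
  expWedge b.cx (1 ⊗ₜ vecβ G) (-(1 ⊗ₜ vecH x)) z

/-- What is used about an equivalence of the derived categories `D(X, α)` and `D(Y, α')` of twisted
sheaves on two hyperkähler varieties `X` and `Y` with cohomology rings `A` and `B`. Let `x` and `x'`
in `H^2` be rational classes (B-fields) which give the Brauer classes `α` and `α'` (for the Chern
characters on the gerbes of `α` and `α'`, which are defined for all Brauer classes, the statements
hold with `x = 0` and `x' = 0`). All these are theorems:
* the twisted Mukai vectors of the kernels of the equivalence and of its inverse give mutually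
  inverse operators `u` and `v` on the rational cohomology (Canonaco, Huybrechts, Stellari);
* `u` conjugates the contractions, conjugated by `exp(x)`, to the contractions, conjugated by
  `exp(x')` (Calaque, Rossi and Van den Bergh);
* there is a similitude `φ` of the extended Mukai spaces, of factor `c`, such that `u` conjugates
  the action of `y ∧ z` to `c⁻¹` times the action of `φ(y) ∧ φ(z)`, and `φ` takes the line
  `exp(x) H^(0,2)(X)` to the line `exp(x') H^(0,2)(Y)` (Taelman; the twist does not matter, as the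
  operator `exp(x)` is in the group of the Lie algebra). -/
structure TwistedData {G : ℕ → Submodule K A} {n : ℕ} {G' : ℕ → Submodule K B} {n' : ℕ}
    (hX : HKData G ⊤ n) (hY : HKData G' ⊤ n') where
  /-- the operator of the twisted Mukai vector of the kernel -/
  u : A →ₗ[K] B
  /-- the operator of the twisted Mukai vector of the kernel of the inverse -/
  v : B →ₗ[K] A
  /-- the similitude of the extended Mukai spaces -/
  φ : Mk G →ₗ[K] Mk G'
  /-- the factor of the similitude -/
  c : K
  /-- the B-field on `X` -/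
  x : G 2
  /-- the B-field on `Y` -/
  x' : G' 2
  dim_eq : n = n'
  inverse : MutuallyInverse u v
  surjective : Function.Surjective φ
  c_ne : c ≠ 0
  similitude : ∀ y z, hY.b.at (φ y) (φ z) = c * hX.b.at y z
  comm : ∀ y z w, c • u (hX.R.at y z w) = hY.R.at (φ y) (φ z) (u w)
  hodge : ∃ t : ℂ, t ≠ 0 ∧ φ.baseChange ℂ (expH hX.b x hX.ω) = t • expH hY.b x' hY.ω
  contractions : Conjugates (u.baseChange ℂ) (twist ((1 : ℂ) ⊗ₜ[K] (x : A)) hX.HT)
    (twist ((1 : ℂ) ⊗ₜ[K] (x' : B)) hY.HT)

/-- The Fujiki relation with the constant `C`, for a hyperkähler variety of dimension `n = 2 m`: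
the integral of `x ^ (2 m)` is `C q(x, x) ^ m` for every `x` in `H^2`. Here `tr` is the integral. -/
structure IsFujiki {G : ℕ → Submodule K A} {n : ℕ} (tr : A →ₗ[K] K) (hX : HKData G ⊤ n) (m : ℕ)
    (C : K) : Prop where
  dim : n = 2 * m
  ne : C ≠ 0
  fujiki : ∀ x : G 2, tr ((x : A) ^ n) = C * hX.q.at x x ^ m

/-- The form `μ` on the cohomology is the Mukai pairing: it is `± ∫ a b`, with the sign
`(-1) ^ (i / 2)` for `a` in `H^i`, and the Lie algebra acts by skew-symmetric operators (a theorem of
Looijenga and Lunts, and of Verbitsky). -/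
structure IsMukai {G : ℕ → Submodule K A} {n : ℕ} (tr : A →ₗ[K] K) (hX : HKData G ⊤ n)
    (μ : Form K A) : Prop where
  sign : ∀ i, ∀ a ∈ G i, ∀ b, μ.at a b = (-1) ^ (i / 2) * tr (a * b)
  skew : ∀ x y a b, μ.at (hX.R.at x y a) b = -μ.at a (hX.R.at x y b)

/-- The operator `u` of a twisted derived equivalence is an isometry for the Mukai pairings (a theorem
of Mukai and Caldararu, and of Huybrechts and Stellari for twisted sheaves). -/
def IsMukaiIsometry {G : ℕ → Submodule K A} {n : ℕ} {G' : ℕ → Submodule K B} {n' : ℕ}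
    {hX : HKData G ⊤ n} {hY : HKData G' ⊤ n'} (tr : A →ₗ[K] K) (tr' : B →ₗ[K] K)
    (D : TwistedData hX hY) : Prop :=
  ∃ (μ : Form K A) (μ' : Form K B), IsMukai tr hX μ ∧ IsMukai tr' hY μ' ∧
    ∀ a b, μ'.at (D.u a) (D.u b) = μ.at a b

/-- The spaces `H^2(X)` and `H^2(Y)` with the Beauville-Bogomolov forms are isometric (for example
if `X` and `Y` are deformation equivalent). -/
def IsometricH2 {G : ℕ → Submodule K A} {n : ℕ} {G' : ℕ → Submodule K B} {n' : ℕ}
    (hX : HKData G ⊤ n) (hY : HKData G' ⊤ n') : Prop :=
  ∃ ι : G' 2 →ₗ[K] G 2, ∀ x y, hX.q.at (ι x) (ι y) = hY.q.at x y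

/-- There is a non-zero isotropic class in `H^2`. -/
def HasIsotropicClass {G : ℕ → Submodule K A} {n : ℕ} (hX : HKData G ⊤ n) : Prop :=
  ∃ e : G 2, e ≠ 0 ∧ hX.q.at e e = 0

/-- The cohomology is zero in odd degrees. -/
def NoOddCohomology (G : ℕ → Submodule K A) : Prop := ∀ i, Odd i → G i = ⊥

/-- The second Betti number is odd. -/
def OddB2 (G : ℕ → Submodule K A) : Prop := Odd (Module.finrank K (G 2))

/-- There is an isomorphism of graded algebras from `A` to `B`. -/
def GradedIsomorphic (G : ℕ → Submodule K A) (G' : ℕ → Submodule K B) : Prop :=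
  ∃ (f : A →ₗ[K] B) (f' : B →ₗ[K] A), IsGradedRingIso G G' f f'

/-- There is an isomorphism of graded algebras from `A` to `B` which is compatible with the
pairings `∫ a b`. -/
def FrobeniusIsomorphic (G : ℕ → Submodule K A) (G' : ℕ → Submodule K B) (tr : A →ₗ[K] K)
    (tr' : B →ₗ[K] K) : Prop :=
  ∃ (f : A →ₗ[K] B) (f' : B →ₗ[K] A), IsGradedRingIso G G' f f' ∧
    ∀ a b, tr' (f a * f b) = tr (a * b)

end Data

end Pool.Agent.N212.TWS
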