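import Pool.Agent.N180.MO.Core
import Pool.Agent.N212.TW.Stm
import Pool.Agent.H914R2.Graded

/-!
# Cohomology rings of twisted derived equivalent hyperkähler varieties: preparations
(after `Pool.Agent.N180.MO.Geo` and `Pool.Agent.N180.MO.Main`)
-/

open CategoryTheory AlgebraicGeometry Finset TensorProduct

universe u v

namespace Pool.Agent.N212.TW

section Mukai

open Pool.Agent.N180.MO

variable {K V M : Type*} [Field K] [AddCommGroup V] [Module K V] [AddCommGroup M] [Module K M]
  [Algebra K ℂ] {b : V →ₗ[K] V →ₗ[K] K} {α β : V}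

lemma hypC (h : Hyp b α β) : Hyp (formC b) (1 ⊗ₜ α) (1 ⊗ₜ β) where
  symm := formC_symm h.symm
  αα := by rw [formC_tmul, h.αα, zero_smul]
  ββ := by rw [formC_tmul, h.ββ, zero_smul]
  αβ := by rw [formC_tmul, h.αβ, neg_smul, one_smul, mul_one]

/-- The vectors orthogonal to `α` and `β` in the complexification. -/
lemma exists_inM {i : M →ₗ[K] V} {p : V →ₗ[K] M}
    (hip : ∀ x, i (p x) = x + b β x • α + b α x • β) {x : ℂ ⊗[K] V}
    (h1 : formC b (1 ⊗ₜ α) x = 0) (h2 : formC b (1 ⊗ₜ β) x = 0) :
    x = i.baseChange ℂ (p.baseChange ℂ x) := by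
  have key : ∀ x : ℂ ⊗[K] V, i.baseChange ℂ (p.baseChange ℂ x) =
      x + formC b (1 ⊗ₜ β) x • (1 ⊗ₜ α) + formC b (1 ⊗ₜ α) x • (1 ⊗ₜ β) := by
    intro x
    induction x using TensorProduct.induction_on with
    | zero => simp
    | add x y hx hy =>
      rw [map_add, map_add, hx, hy]
      simp only [map_add, add_smul]
      abel
    | tmul a x =>
      have hh : ∀ (r : K) (v : V), (r • a) • ((1 : ℂ) ⊗ₜ[K] v) = a ⊗ₜ[K] (r • v) := by
        intro r v
        rw [TensorProduct.smul_tmul', smul_eq_mul, mul_one, TensorProduct.smul_tmul]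
      rw [LinearMap.baseChange_tmul, LinearMap.baseChange_tmul, formC_tmul, formC_tmul, one_mul,
        hh, hh, ← TensorProduct.tmul_add, ← TensorProduct.tmul_add, hip]
  rw [key, h1, h2, zero_smul, zero_smul, add_zero, add_zero]

end Mukai

section Rep

open Pool.Agent.N180.MOS Pool.Agent.N180

variable {F V H : Type*} [Field F] [CharZero F] [AddCommGroup V] [Module F V] [AddCommGroup H]
  [Module F H] {b : Form F V} {R : Act F V H}

omit [CharZero F] in
lemma rep_old (h : IsRep b R) : MO.IsRep b.lin R.lin where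
  alt := h.alt
  lie := h.lie

omit [CharZero F] in
lemma expWedge_eq (l x z : V) : expWedge b l x z = MO.eich b.lin l x z := by
  rw [MO.eich_apply]
  rfl

lemma spin_old (hs : ∀ x y, b.at x y = b.at y x) {g : Module.End F H} {e : V → V}
    (h : Spin b R g e) : ∃ p ∈ MO.spin b.lin R.lin, p.1 = g ∧ ∀ x, p.2 x = e x := by
  induction h with
  | one => exact ⟨1, one_mem _, rfl, fun _ => rfl⟩
  | mul l x g' g e hl hx hg' _ ih =>
    obtain ⟨p, hp, h1, h2⟩ := ih
    refine ⟨(g', MO.eich b.lin l x) * p, mul_mem (MO.mem_spin_gen hs hl hx hg') hp, ?_, ?_⟩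
    · rw [Prod.fst_mul, h1]
    · intro z
      rw [Prod.snd_mul, Module.End.mul_apply, h2]
      exact (expWedge_eq l x (e z)).symm

omit [CharZero F] in
lemma spin_trans {g g' : Module.End F H} {e e' : V → V} (h : Spin b R g e)
    (h' : Spin b R g' e') : Spin b R (g * g') (fun z => e (e' z)) := by
  induction h with
  | one => rw [one_mul]; exact h'
  | mul l x g₁ g₂ e₂ hl hx hg _ ih =>
    rw [mul_assoc]
    exact Spin.mul l x g₁ _ _ hl hx hg ih

lemma spin_new (hs : ∀ x y, b.at x y = b.at y x) {p : Module.End F H × Module.End F V}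
    (hp : p ∈ MO.spin b.lin R.lin) : Spin b R p.1 p.2 := by
  induction hp using Submonoid.closure_induction with
  | mem p hp =>
    obtain ⟨l, x, hl, hx, h1, h2⟩ := hp
    have h3 : ⇑p.2 = fun z => expWedge b l x (id z) := by
      rw [h2.unique (MO.isExp_eich hs hl hx)]
      funext z
      exact (expWedge_eq l x z).symm
    rw [h3, ← mul_one p.1]
    exact Spin.mul l x _ _ _ hl hx h1 Spin.one
  | one => exact Spin.one
  | mul p q _ _ hp hq =>
    have h1 := spin_trans hp hq
    exact h1

end Rep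

open Pool.Agent.H914 Pool.Agent.N180.MOS Pool.Agent.N180.MO Pool.Agent.N212.TWS

variable {K A : Type v} [Field K] [CharZero K] [Ring A] [Algebra K A] {G : ℕ → Submodule K A}
  {n : ℕ} {tr : A →ₗ[K] K}

section ring

omit [CharZero K]

lemma even_central (hA : IsPoincareAlgebra G n tr) {x : A} (hx : x ∈ G 2) (y : A) :
    x * y = y * x := by
  refine gr_induction hA.isInternal (p := fun y => x * y = y * x) ?_ ?_ y
  · intro i y hy
    rw [hA.comm hx hy, pow_mul, neg_one_sq, one_pow, one_smul]
  · intro a b ha hb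
    rw [mul_add, add_mul, ha, hb]

lemma pow_mem_gr (hA : IsPoincareAlgebra G n tr) {x : A} (hx : x ∈ G 2) (m : ℕ) :
    x ^ m ∈ G (2 * m) := by
  induction m with
  | zero => rw [pow_zero]; exact hA.one_mem
  | succ m ih =>
    rw [pow_succ, show 2 * (m + 1) = 2 * m + 2 by ring]
    exact hA.mul_mem ih hx

lemma even_nilpotent (hA : IsPoincareAlgebra G n tr) {x : A} (hx : x ∈ G 2) : IsNilpotent x := by
  refine ⟨n + 1, ?_⟩
  have := pow_mem_gr hA hx (n + 1)
  rw [hA.gr_eq_bot _ (by omega)] at this
  exact (Submodule.mem_bot _).1 this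

lemma mulLeft_nilpotent {F B : Type*} [Field F] [Ring B] [Algebra F B] {x : B}
    (hx : IsNilpotent x) : IsNilpotent (LinearMap.mulLeft F x) := by
  obtain ⟨m, hm⟩ := hx
  exact ⟨m, by rw [LinearMap.pow_mulLeft, hm, LinearMap.mulLeft_zero_eq_zero]⟩

/-- The vector `(r, x, s)` of the extended Mukai space. -/
def mkM {G : ℕ → Submodule K A} (r : K) (x : G 2) (s : K) : Mk G := (r, x, s)

/-- The inclusion of `H^2` in the extended Mukai space. -/
def inH (G : ℕ → Submodule K A) : (G 2) →ₗ[K] Mk G where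
  toFun := fun x => mkM 0 x 0
  map_add' := fun x y => by
    change ((0, x + y, 0) : K × (G 2) × K) = (0 + 0, x + y, 0 + 0)
    rw [add_zero]
  map_smul' := fun c x => by
    change ((0, c • x, 0) : K × (G 2) × K) = (c • 0, c • x, c • 0)
    rw [smul_zero]

/-- The projection of the extended Mukai space to `H^2`. -/
def prH (G : ℕ → Submodule K A) : Mk G →ₗ[K] (G 2) where
  toFun := fun x => Prod.fst (Prod.snd x)
  map_add' := fun _ _ => rfl
  map_smul' := fun _ _ => rfl

end ring

section HK

variable [Algebra K ℂ] (h : HKData G ⊤ n)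

include h

omit [CharZero K] in
lemma form_eq (r : K) (x : (G 2)) (s r' : K) (x' : (G 2)) (s' : K) :
    h.b.lin (mkM r x s) (mkM r' x' s') = h.q.lin x x' - r * s' - s * r' := h.mukai r x s r' x' s'

omit [CharZero K] in
lemma hyp : Hyp h.b.lin (vecα G) (vecβ G) where
  symm := h.rep.symm
  αα := by
    have := form_eq h 1 0 0 1 0 0
    simp only [map_zero, mul_zero, zero_mul, sub_zero] at this
    exact this
  ββ := by
    have := form_eq h 0 0 1 0 0 1
    simp only [map_zero, mul_zero, zero_mul, sub_zero] at this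
    exact this
  αβ := by
    have := form_eq h 1 0 0 0 0 1
    simp only [map_zero, mul_zero, mul_one, sub_zero, zero_sub] at this
    exact this

omit [CharZero K] in
lemma form_β (r : K) (x : (G 2)) (s : K) : h.b.lin (vecβ G) (mkM r x s) = -r := by
  have := form_eq h 0 0 1 r x s
  simp only [map_zero, LinearMap.zero_apply, zero_mul, one_mul, sub_zero, zero_sub] at this
  exact this

omit [CharZero K] in
lemma form_α (r : K) (x : (G 2)) (s : K) : h.b.lin (vecα G) (mkM r x s) = -s := by
  have := form_eq h 1 0 0 r x s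
  simp only [map_zero, LinearMap.zero_apply, zero_mul, one_mul, sub_zero, zero_sub] at this
  exact this

omit [CharZero K] [Algebra K ℂ] h in
lemma mk_eq (r : K) (x : (G 2)) (s : K) :
    mkM r x s = r • vecα G + mkM 0 x 0 + s • vecβ G := by
  change ((r, x, s) : K × (G 2) × K) =
    (r • 1 + 0 + s • 0, r • 0 + x + s • 0, r • 0 + 0 + s • 1)
  simp

omit [CharZero K] in
lemma Rβ (x : (G 2)) :
    h.R.lin (vecβ G) (mkM 0 x 0) = -LinearMap.mulLeft K (x : A) := by
  rw [(rep_old h.rep).skew]
  congr 1
  apply LinearMap.ext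
  intro y
  exact h.cup x y

omit [CharZero K] in
lemma good_β (hA : IsPoincareAlgebra G n tr) :
    Good h.b.lin h.R.lin (⊤ : Subalgebra K (Module.End K A)) ⊤ (vecβ G) := by
  rintro ⟨r, l, s⟩ hx hb
  refine ⟨Algebra.mem_top, ?_⟩
  have hr : r = 0 := by
    have := form_β h r l s
    change h.b.lin (vecβ G) (mkM r l s) = 0 at hb
    rw [hb] at this
    exact neg_eq_zero.1 this.symm
  subst hr
  have h1 : h.R.lin (vecβ G) (mkM 0 l s) = -LinearMap.mulLeft K (l : A) := by
    rw [mk_eq 0 l s, map_add, map_add, map_smul, map_smul, (rep_old h.rep).alt, smul_zero,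
      add_zero, zero_smul, zero_add, Rβ h]
  change IsNilpotent (h.R.lin (vecβ G) (mkM 0 l s))
  rw [h1]
  exact (mulLeft_nilpotent (even_nilpotent hA l.2)).neg

omit [CharZero K] in
lemma nondeg_all (x : Mk G) (h0 : ∀ y ∈ (⊤ : Submodule K (Mk G)), h.b.lin x y = 0) : x = 0 := by
  obtain ⟨r, l, s⟩ := x
  change ∀ y ∈ (⊤ : Submodule K (Mk G)), h.b.lin (mkM r l s) y = 0 at h0
  have hs : s = 0 := by
    have h1 := h0 (vecα G) trivial
    rw [(hyp h).symm, form_α h] at h1
    exact neg_eq_zero.1 h1
  have hr : r = 0 := by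
    have h1 := h0 (vecβ G) trivial
    rw [(hyp h).symm, form_β h] at h1
    exact neg_eq_zero.1 h1
  subst hs hr
  have hl : l = 0 := by
    apply h.nondeg l trivial
    intro y hy
    have h3 := h0 (mkM 0 y 0) trivial
    rw [form_eq h] at h3
    simp only [mul_zero, sub_zero] at h3
    exact h3
  rw [hl]
  rfl

omit [CharZero K] in
lemma split (x : Mk G) : inH G (prH G x) =
    x + h.b.lin (vecβ G) x • vecα G + h.b.lin (vecα G) x • vecβ G := by
  obtain ⟨r, l, s⟩ := x
  change mkM 0 l 0 = mkM r l s + h.b.lin (vecβ G) (mkM r l s) • vecα G +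
    h.b.lin (vecα G) (mkM r l s) • vecβ G
  rw [form_β h, form_α h, mk_eq r l s]
  module

/-- The elements `x` orthogonal to `α` and `β`. -/
lemma cent (hA : IsPoincareAlgebra G n tr) (x : ℂ ⊗[K] Mk G)
    (h1 : h.b.cx.lin (1 ⊗ₜ vecα G) x = 0) (h2 : h.b.cx.lin (1 ⊗ₜ vecβ G) x = 0) :
    IsNilpotent (h.R.cx.lin (1 ⊗ₜ vecβ G) x) ∧ ∀ z y : ℂ ⊗[K] A,
      h.R.cx.lin (1 ⊗ₜ vecβ G) x (z * y) = z * h.R.cx.lin (1 ⊗ₜ vecβ G) x y := by
  have key : ∀ m : ℂ ⊗[K] (G 2), ∃ c : ℂ ⊗[K] A, IsNilpotent c ∧
      (∀ y, c * y = y * c) ∧ opC h.R.lin (1 ⊗ₜ vecβ G) ((inH G).baseChange ℂ m) =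
        -LinearMap.mulLeft ℂ c := by
    intro m
    induction m using TensorProduct.induction_on with
    | zero => exact ⟨0, IsNilpotent.zero, by simp, by simp⟩
    | add m m' hm hm' =>
      obtain ⟨c, hc, hc1, hc2⟩ := hm
      obtain ⟨c', hc', hc1', hc2'⟩ := hm'
      refine ⟨c + c', Commute.isNilpotent_add (hc1 c') hc hc', fun y => ?_, ?_⟩
      · rw [add_mul, mul_add, hc1, hc1']
      · rw [map_add, map_add, hc2, hc2']
        apply LinearMap.ext
        intro z
        simp only [LinearMap.add_apply, LinearMap.neg_apply, LinearMap.mulLeft_apply, add_mul]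
        abel
    | tmul a m =>
      refine ⟨a ⊗ₜ (m : A), ?_, ?_, ?_⟩
      · obtain ⟨n, hn⟩ := even_nilpotent hA m.2
        change (m : A) ^ n = 0 at hn
        exact ⟨n, by rw [Algebra.TensorProduct.tmul_pow, hn, TensorProduct.tmul_zero]⟩
      · intro y
        induction y using TensorProduct.induction_on with
        | zero => simp
        | add y y' hy hy' => rw [mul_add, add_mul, hy, hy']
        | tmul c y =>
          rw [Algebra.TensorProduct.tmul_mul_tmul, Algebra.TensorProduct.tmul_mul_tmul,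
            show (m : A) * y = y * (m : A) from even_central hA m.2 y, mul_comm]
      · rw [LinearMap.baseChange_tmul, opC_tmul, one_mul]
        have h3 : inH G m = mkM 0 m 0 := rfl
        rw [h3, Rβ h, LinearMap.baseChange_neg, smul_neg]
        congr 1
        apply LinearMap.ext
        intro z
        induction z using TensorProduct.induction_on with
        | zero => simp
        | add y y' hy hy' => rw [map_add, map_add, hy, hy']
        | tmul c y =>
          rw [LinearMap.smul_apply, LinearMap.baseChange_tmul, LinearMap.mulLeft_apply,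
            LinearMap.mulLeft_apply, Algebra.TensorProduct.tmul_mul_tmul,
            TensorProduct.smul_tmul', smul_eq_mul]
  obtain ⟨c, hc, hc1, hc2⟩ := key ((prH G).baseChange ℂ x)
  have hx : x = (inH G).baseChange ℂ ((prH G).baseChange ℂ x) :=
    exists_inM (b := h.b.lin) (split h) h1 h2
  rw [← hx] at hc2
  change IsNilpotent (opC h.R.lin (1 ⊗ₜ vecβ G) x) ∧ ∀ z y : ℂ ⊗[K] A,
    opC h.R.lin (1 ⊗ₜ vecβ G) x (z * y) = z * opC h.R.lin (1 ⊗ₜ vecβ G) x y
  rw [hc2]
  refine ⟨(mulLeft_nilpotent hc).neg, fun z y => ?_⟩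
  rw [LinearMap.neg_apply, LinearMap.neg_apply, LinearMap.mulLeft_apply, LinearMap.mulLeft_apply,
    ← mul_assoc, hc1, mul_assoc, mul_neg]

omit [CharZero K] in
lemma degL (i : ℕ) (y : A) (hy : y ∈ G i) :
    (2 : K) • h.R.lin (vecβ G) (vecα G) y = ((i : K) - n) • y := h.deg i y hy

omit [CharZero K] [Algebra K ℂ] h in
/-- An element all of whose components vanish is zero. -/
lemma eq_zero_of_proj (hA : IsPoincareAlgebra G n tr) {x : A}
    (h : ∀ j, proj hA.isInternal j x = 0) : x = 0 := by
  have hsum := sum_proj hA.isInternal (N := 2 * n + 1)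
    (fun i hi => hA.gr_eq_bot i (by omega))
  have h2 := congrArg (fun F => F x) hsum
  simp only [LinearMap.sum_apply, Module.End.one_apply, h, Finset.sum_const_zero] at h2
  exact h2.symm

omit [CharZero K] [Algebra K ℂ] h in
lemma eq_of_proj (hA : IsPoincareAlgebra G n tr) {x y : A} (h : ∀ j, proj hA.isInternal j x =
    proj hA.isInternal j y) : x = y := by
  rw [← sub_eq_zero]
  apply eq_zero_of_proj hA
  intro j
  rw [map_sub, h, sub_self]

/-- The elements on which the degree operator acts as on `H^i`. -/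
lemma mem_gr (hA : IsPoincareAlgebra G n tr) {i : ℕ} {y : A}
    (hy : (2 : K) • h.R.lin (vecβ G) (vecα G) y = ((i : K) - n) • y) : y ∈ G i := by
  have key : ∀ (j : ℕ) (y : A), proj hA.isInternal j
      ((2 : K) • h.R.lin (vecβ G) (vecα G) y) = ((j : K) - n) • proj hA.isInternal j y := by
    intro j y
    refine gr_induction hA.isInternal (p := fun y => proj hA.isInternal j
      ((2 : K) • h.R.lin (vecβ G) (vecα G) y) =
      ((j : K) - n) • proj hA.isInternal j y) ?_ ?_ y
    · intro l y hy
      rw [degL h l y hy, map_smul]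
      by_cases hl : l = j
      · subst hl; rfl
      · rw [proj_ne _ hy hl, smul_zero, smul_zero]
    · intro a b ha hb
      rw [map_add, smul_add, map_add, ha, hb, map_add, smul_add]
  have h1 : y = proj hA.isInternal i y := by
    apply eq_of_proj hA
    intro j
    by_cases hj : i = j
    · subst hj
      rw [proj_same _ (proj_mem _ _ _)]
    · rw [proj_ne _ (proj_mem _ _ _) hj]
      have h2 := key j y
      rw [hy, map_smul, ← sub_eq_zero, ← sub_smul] at h2
      refine (smul_eq_zero.1 h2).resolve_left ?_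
      rw [sub_sub_sub_cancel_right, sub_eq_zero]
      exact_mod_cast hj
  rw [h1]
  exact proj_mem _ _ _

end HK

end Pool.Agent.N212.TW
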