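import Pool.Agent.N212.TW.Scale

/-!
# Cohomology rings of twisted derived equivalent hyperkähler varieties: Frobenius algebras
-/

open CategoryTheory AlgebraicGeometry Finset TensorProduct

universe u v

namespace Pool.Agent.N212.TW

open Pool.Agent.N180 Pool.Agent.H914 Pool.Agent.N180.MOS Pool.Agent.N180.MO Pool.Agent.N212.TWS

variable {K A B : Type v} [Field K] [CharZero K] [Ring A] [Algebra K A] [Ring B] [Algebra K B]
  {G : ℕ → Submodule K A} {n : ℕ} {tr : A →ₗ[K] K} {G' : ℕ → Submodule K B} {n' : ℕ}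
  {tr' : B →ₗ[K] K} [Algebra K ℂ]

omit [CharZero K] [Algebra K ℂ] in
/-- The orientation is injective in top degree. -/
lemma tr_inj (hA : IsPoincareAlgebra G n tr) {a : A} (ha : a ∈ G (2 * n)) (h : tr a = 0) :
    a = 0 := by
  apply hA.nondeg
  intro b
  refine gr_induction hA.isInternal (p := fun b => tr (a * b) = 0) ?_ ?_ b
  · intro j b hb
    rcases Nat.eq_zero_or_pos j with rfl | hj
    · rw [hA.gr_zero, Submodule.mem_span_singleton] at hb
      obtain ⟨k, rfl⟩ := hb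
      rw [mul_smul_comm, mul_one, map_smul, h, smul_zero]
    · have h1 := hA.mul_mem ha hb
      rw [hA.gr_eq_bot _ (by omega), Submodule.mem_bot] at h1
      rw [h1, map_zero]
  · intro b b' hb hb'
    rw [mul_add, map_add, hb, hb', add_zero]

omit [CharZero K] [Algebra K ℂ] in
lemma iso_pow {s : A →ₗ[K] B} {s' : B →ₗ[K] A} (hiso : IsGradedRingIso G G' s s') (x : A) (m : ℕ) :
    s (x ^ m) = s x ^ m := by
  induction m with
  | zero => rw [pow_zero, pow_zero, hiso.one]
  | succ m ih => rw [pow_succ, pow_succ, hiso.mul, ih]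

section two

variable {hX : HKData G ⊤ n} {hY : HKData G' ⊤ n'}

/-- The effect on the integrals of the powers of the classes of degree two. -/
lemma Move.top {D : TwistedData hX hY} {p : Module.End K B × Module.End K (Mk G')} {r t : K}
    (hp : Move D p r t) {c₀ : K} {s : A →ₗ[K] B} {s' : B →ₗ[K] A} (hc₀ : c₀ ≠ 0)
    (hs : ∀ x, p.1 (D.u x) = c₀ • s x) (hiso : IsGradedRingIso G G' s s') {m : ℕ} {C : K}
    (hF : IsFujiki tr hX m C) (hF' : IsFujiki tr' hY m C) (x : G 2) :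
    r ^ (2 * m) * tr' (s ((x : A) ^ n)) = D.c ^ m * tr ((x : A) ^ n) := by
  obtain ⟨y, hy, hyq⟩ := hp.form hc₀ hs hiso x
  have h1 := hF.fujiki x
  have h2 := hF'.fujiki y
  have hn : tr' ((y : B) ^ n) = tr' ((y : B) ^ n') :=
    congrArg (fun k => tr' ((y : B) ^ k)) D.dim_eq
  rw [iso_pow hiso, ← hy, hn, h2, h1]
  change r ^ (2 * m) * (C * hY.q.lin y y ^ m) = D.c ^ m * (C * hX.q.lin x x ^ m)
  have h3 : (r ^ 2 * hY.q.lin y y) ^ m = (D.c * hX.q.lin x x) ^ m := by rw [hyq]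
  rw [mul_pow, mul_pow, ← pow_mul] at h3
  linear_combination C * h3

/-- An isomorphism which preserves one integral preserves the integrals. -/
lemma tr_of_top (hA : IsPoincareAlgebra G n tr) (hB : IsPoincareAlgebra G' n' tr')
    (hnn : n = n') {s : A →ₗ[K] B} {s' : B →ₗ[K] A} (hiso : IsGradedRingIso G G' s s') {x : G 2}
    (hx0 : tr ((x : A) ^ n) ≠ 0) (htop : tr' (s ((x : A) ^ n)) = tr ((x : A) ^ n)) (a : A) :
    tr' (s a) = tr a := by
  have hxn : (x : A) ^ n ∈ G (2 * n) := pow_mem_gr hA x.2 n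
  refine gr_induction hA.isInternal (p := fun a => tr' (s a) = tr a) ?_ ?_ a
  · intro i a ha
    by_cases hi : i = 2 * n
    · subst hi
      have h1 : a - (tr a / tr ((x : A) ^ n)) • (x : A) ^ n = 0 := by
        apply tr_inj hA (Submodule.sub_mem _ ha (Submodule.smul_mem _ _ hxn))
        rw [map_sub, map_smul, smul_eq_mul, div_mul_cancel₀ _ hx0, sub_self]
      rw [sub_eq_zero] at h1
      rw [h1, map_smul, map_smul, htop, map_smul]
    · rw [hA.tr_eq_zero ha hi, hB.tr_eq_zero (hiso.degree i a ha) (by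
        rw [← hnn]
        exact hi)]
  · intro a b ha hb
    rw [map_add, map_add, ha, hb, map_add]

/-- If the factor of the similitude is a square then the isomorphism can be chosen to preserve
the integrals. -/
theorem exists_frobenius (hA : IsPoincareAlgebra G n tr) (hB : IsPoincareAlgebra G' n' tr')
    (D : TwistedData hX hY) {m : ℕ} {C : K} (hF : IsFujiki tr hX m C) (hF' : IsFujiki tr' hY m C)
    {e : G' 2} (he : e ≠ 0) (he' : hY.q.lin e e = 0) {r : K} (hr : r ^ 2 = D.c) :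
    ∃ (s : A →ₗ[K] B) (s' : B →ₗ[K] A), IsGradedRingIso G G' s s' ∧ ∀ a, tr' (s a) = tr a := by
  have hr0 : r ≠ 0 := by
    rintro rfl
    rw [zero_pow two_ne_zero] at hr
    exact D.c_ne hr.symm
  obtain ⟨p, t, hp⟩ := exists_move_scaled hA hB D he he' hr0
  obtain ⟨c₀, s, s', hc₀, hs, hiso⟩ := hp.iso hA hB
  obtain ⟨x, -, hx⟩ := hX.ample
  change hX.q.lin x x ≠ 0 at hx
  have htop := hp.top hc₀ hs hiso hF hF' x
  rw [pow_mul, hr] at htop
  have htop' : tr' (s ((x : A) ^ n)) = tr ((x : A) ^ n) :=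
    mul_left_cancel₀ (pow_ne_zero _ D.c_ne) htop
  have hx0 : tr ((x : A) ^ n) ≠ 0 := by
    rw [hF.fujiki x]
    exact mul_ne_zero hF.ne (pow_ne_zero _ hx)
  exact ⟨s, s', hiso, tr_of_top hA hB D.dim_eq hiso hx0 htop'⟩

omit [CharZero K] [Algebra K ℂ] in
/-- Scaling an isomorphism if there is no cohomology in odd degrees. -/
lemma scal_iso (hA : IsPoincareAlgebra G n tr) (hB : IsPoincareAlgebra G' n' tr')
    (hev : ∀ i, Odd i → G' i = ⊥) {s : A →ₗ[K] B} {s' : B →ₗ[K] A}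
    (hiso : IsGradedRingIso G G' s s') {ρ : K} (hρ : ρ ≠ 0) :
    ∃ (s₁ : A →ₗ[K] B) (s₁' : B →ₗ[K] A), IsGradedRingIso G G' s₁ s₁' ∧
      ∀ i, ∀ a ∈ G i, s₁ a = ρ ^ (i / 2) • s a := by
  have hsc : ∀ (ρ : K) i, ∀ b ∈ G' i,
      scal hB.isInternal (fun i => ρ ^ (i / 2)) b = ρ ^ (i / 2) • b :=
    fun ρ i b hb => scal_apply hB.isInternal _ hb
  have hinv : ∀ (ρ : K), ρ ≠ 0 → ∀ b, scal hB.isInternal (fun i => ρ⁻¹ ^ (i / 2))
      (scal hB.isInternal (fun i => ρ ^ (i / 2)) b) = b := by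
    intro ρ hρ b
    refine gr_induction hB.isInternal (p := fun b => scal hB.isInternal (fun i => ρ⁻¹ ^ (i / 2))
      (scal hB.isInternal (fun i => ρ ^ (i / 2)) b) = b) ?_ ?_ b
    · intro i b hb
      rw [hsc ρ i b hb, map_smul, hsc ρ⁻¹ i b hb, smul_smul, ← mul_pow, mul_inv_cancel₀ hρ,
        one_pow, one_smul]
    · intro a b ha hb
      rw [map_add, map_add, ha, hb]
  have hs₁ : ∀ i, ∀ a ∈ G i, (scal hB.isInternal (fun i => ρ ^ (i / 2)) ∘ₗ s) a =
      ρ ^ (i / 2) • s a := fun i a ha => hsc ρ i _ (hiso.degree i a ha)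
  refine ⟨scal hB.isInternal (fun i => ρ ^ (i / 2)) ∘ₗ s,
    s' ∘ₗ scal hB.isInternal (fun i => ρ⁻¹ ^ (i / 2)), ⟨⟨?_, ?_⟩, ?_, ?_, ?_⟩, hs₁⟩
  · intro x
    rw [LinearMap.comp_apply, LinearMap.comp_apply, hinv ρ hρ, hiso.inverse.1]
  · intro y
    rw [LinearMap.comp_apply, LinearMap.comp_apply, hiso.inverse.2]
    have := hinv ρ⁻¹ (inv_ne_zero hρ) y
    rwa [inv_inv] at this
  · intro i x hx
    rw [hs₁ i x hx]
    exact Submodule.smul_mem _ _ (hiso.degree i x hx)
  · rw [hs₁ 0 1 hA.one_mem, Nat.zero_div, pow_zero, one_smul, hiso.one]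
  · intro x y
    refine gr_induction hA.isInternal (p := fun x =>
      (scal hB.isInternal (fun i => ρ ^ (i / 2)) ∘ₗ s) (x * y) =
      (scal hB.isInternal (fun i => ρ ^ (i / 2)) ∘ₗ s) x *
      (scal hB.isInternal (fun i => ρ ^ (i / 2)) ∘ₗ s) y) ?_ ?_ x
    · intro i x hx
      refine gr_induction hA.isInternal (p := fun y =>
        (scal hB.isInternal (fun i => ρ ^ (i / 2)) ∘ₗ s) (x * y) =
        (scal hB.isInternal (fun i => ρ ^ (i / 2)) ∘ₗ s) x *
        (scal hB.isInternal (fun i => ρ ^ (i / 2)) ∘ₗ s) y) ?_ ?_ y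
      · intro j y hy
        rw [hs₁ i x hx, hs₁ j y hy, hs₁ (i + j) _ (hA.mul_mem hx hy), hiso.mul,
          smul_mul_smul_comm, ← pow_add]
        rcases Nat.even_or_odd i with hi | hi
        · rcases Nat.even_or_odd j with hj | hj
          · obtain ⟨a, rfl⟩ := hi
            obtain ⟨b, rfl⟩ := hj
            congr 2
            omega
          · have h1 := hiso.degree j y hy
            rw [hev j hj, Submodule.mem_bot] at h1
            rw [h1, mul_zero, smul_zero, smul_zero]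
        · have h1 := hiso.degree i x hx
          rw [hev i hi, Submodule.mem_bot] at h1
          rw [h1, zero_mul, smul_zero, smul_zero]
      · intro a b ha hb
        rw [mul_add, map_add, ha, hb, map_add, mul_add]
    · intro a b ha hb
      rw [add_mul, map_add, ha, hb, map_add, add_mul]

/-- The same if there is no cohomology in odd degrees. -/
theorem exists_frobenius_even (hA : IsPoincareAlgebra G n tr) (hB : IsPoincareAlgebra G' n' tr')
    (D : TwistedData hX hY) {m : ℕ} {C : K} (hF : IsFujiki tr hX m C) (hF' : IsFujiki tr' hY m C)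
    (hev : ∀ i, Odd i → G' i = ⊥) {r : K} (hr : r ^ 2 = D.c) :
    ∃ (s : A →ₗ[K] B) (s' : B →ₗ[K] A), IsGradedRingIso G G' s s' ∧ ∀ a, tr' (s a) = tr a := by
  have hr0 : r ≠ 0 := by
    rintro rfl
    rw [zero_pow two_ne_zero] at hr
    exact D.c_ne hr.symm
  obtain ⟨p, r₀, t, hp⟩ := exists_move' hA hB D
  obtain ⟨c₀, s, s', hc₀, hs, hiso⟩ := hp.iso hA hB
  have hr₀ := hp.r_ne
  obtain ⟨s₁, s₁', hiso₁, hs₁⟩ := scal_iso hA hB hev hiso (div_ne_zero hr₀ hr0)
  obtain ⟨x, -, hx⟩ := hX.ample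
  change hX.q.lin x x ≠ 0 at hx
  have htop := hp.top hc₀ hs hiso hF hF' x
  rw [← hr, ← pow_mul] at htop
  have hx0 : tr ((x : A) ^ n) ≠ 0 := by
    rw [hF.fujiki x]
    exact mul_ne_zero hF.ne (pow_ne_zero _ hx)
  refine ⟨s₁, s₁', hiso₁, tr_of_top hA hB D.dim_eq hiso₁ hx0 ?_⟩
  rw [hs₁ _ _ (pow_mem_gr hA x.2 n), map_smul, smul_eq_mul, show 2 * n / 2 = 2 * m by
    have := hF.dim
    omega, div_pow, div_mul_eq_mul_div, htop, mul_div_assoc, mul_comm, div_mul_cancel₀]
  exact pow_ne_zero _ hr0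

/-- The exponentials of skew-symmetric operators are isometries. -/
lemma exp_isometry {μ : Form K A} {a g : Module.End K A} (hg : MO.IsExp a g)
    (ha : ∀ x y, μ.lin (a x) y = -μ.lin x (a y)) (x y : A) :
    μ.lin (g x) (g y) = μ.lin x y := by
  obtain ⟨g', h1, h2, h3⟩ := hg.inv
  obtain ⟨m, hm, hgm⟩ := hg
  have h4 : g' = ∑ i ∈ Finset.range m, ((i.factorial : K))⁻¹ • (-a) ^ i := by
    refine h1.unique ⟨m, ?_, rfl⟩
    have h5 : (-a) ^ m = (-1) ^ m * a ^ m := neg_pow a m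
    rw [h5, hm, mul_zero]
  have key : ∀ i x y, μ.lin ((a ^ i) x) y = μ.lin x (((-a) ^ i) y) := by
    intro i
    induction i with
    | zero => intro x y; simp
    | succ i ih =>
      intro x y
      rw [pow_succ, Module.End.mul_apply, ih, ha, pow_succ', Module.End.mul_apply,
        LinearMap.neg_apply, map_neg]
  have h5 : ∀ x y, μ.lin (g x) y = μ.lin x (g' y) := by
    intro x y
    rw [h4, hgm]
    simp only [LinearMap.sum_apply, map_sum, LinearMap.smul_apply, map_smul, key]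
  have h6 : g' (g y) = y := LinearMap.congr_fun h3 y
  rw [h5, h6]

lemma spin_isometry {μ : Form K A} (hμ : IsMukai tr hX μ)
    {p : Module.End K A × Module.End K (Mk G)} (hp : p ∈ MO.spin hX.b.lin hX.R.lin) (x y : A) :
    μ.lin (p.1 x) (p.1 y) = μ.lin x y := by
  induction hp using Submonoid.closure_induction generalizing x y with
  | mem p hp =>
    obtain ⟨l, z, hl, hz, h1, h2⟩ := hp
    exact exp_isometry h1 (fun a b => hμ.skew l z a b) x y
  | one => rfl
  | mul p q _ _ hp hq =>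
    rw [Prod.fst_mul, Module.End.mul_apply, Module.End.mul_apply, hp, hq]

/-- The factor of the similitude is a square if `m` is odd. -/
theorem square_of_odd (hA : IsPoincareAlgebra G n tr) (hB : IsPoincareAlgebra G' n' tr')
    (D : TwistedData hX hY) {m : ℕ} {C : K} (hF : IsFujiki tr hX m C) (hF' : IsFujiki tr' hY m C)
    (hm : Odd m) (hM : IsMukaiIsometry tr tr' D) : ∃ r : K, r ^ 2 = D.c := by
  obtain ⟨p, r, t, hp⟩ := exists_move' hA hB D
  obtain ⟨c₀, s, s', hc₀, hs, hiso⟩ := hp.iso hA hB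
  obtain ⟨μ, μ', h1, h2, h3⟩ := hM
  obtain ⟨x, -, hx⟩ := hX.ample
  change hX.q.lin x x ≠ 0 at hx
  have htop := hp.top hc₀ hs hiso hF hF' x
  have hx0 : tr ((x : A) ^ n) ≠ 0 := by
    rw [hF.fujiki x]
    exact mul_ne_zero hF.ne (pow_ne_zero _ hx)
  have h4 : c₀ ^ 2 * tr' (s ((x : A) ^ n)) = tr ((x : A) ^ n) := by
    have e1 : μ'.lin (p.1 (D.u 1)) (p.1 (D.u ((x : A) ^ n))) = μ.lin 1 ((x : A) ^ n) := by
      rw [spin_isometry h2 hp.mem]
      exact h3 _ _
    have e2 : μ.lin 1 ((x : A) ^ n) = tr ((x : A) ^ n) := by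
      have := h1.sign 0 1 hA.one_mem ((x : A) ^ n)
      rw [one_mul, Nat.zero_div, pow_zero, one_mul] at this
      exact this
    have e3 : μ'.lin 1 (s ((x : A) ^ n)) = tr' (s ((x : A) ^ n)) := by
      have := h2.sign 0 1 hB.one_mem (s ((x : A) ^ n))
      rw [one_mul, Nat.zero_div, pow_zero, one_mul] at this
      exact this
    rw [hs, hs, hiso.one, map_smul, map_smul, LinearMap.smul_apply, e3, e2, smul_eq_mul,
      smul_eq_mul] at e1
    linear_combination e1
  have h5 : tr' (s ((x : A) ^ n)) ≠ 0 := by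
    intro h0
    rw [h0, mul_zero] at h4
    exact hx0 h4.symm
  have h6 : r ^ (2 * m) = D.c ^ m * c₀ ^ 2 := by
    rw [← h4] at htop
    refine mul_right_cancel₀ h5 ?_
    linear_combination htop
  obtain ⟨k, rfl⟩ := hm
  refine ⟨r ^ (2 * k + 1) / (D.c ^ k * c₀), ?_⟩
  have h7 : D.c ^ k * c₀ ≠ 0 := mul_ne_zero (pow_ne_zero _ D.c_ne) hc₀
  rw [div_pow, div_eq_iff (pow_ne_zero _ h7)]
  have h8 : (r ^ (2 * k + 1)) ^ 2 = r ^ (2 * (2 * k + 1)) := by
    rw [← pow_mul]
    congr 1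
    ring
  rw [h8, h6]
  ring

omit [CharZero K] [Algebra K ℂ] in
/-- The determinant of a similitude. -/
lemma det_similitude {V : Type v} [AddCommGroup V] [Module K V] [Module.Finite K V]
    (q : LinearMap.BilinForm K V) (hs : ∀ x y, q x y = q y x)
    (hq : ∀ x, (∀ y, q x y = 0) → x = 0) (ψ : V →ₗ[K] V) {a c : K}
    (h : ∀ x y, a * q (ψ x) (ψ y) = c * q x y) :
    a ^ Module.finrank K V * LinearMap.det ψ ^ 2 = c ^ Module.finrank K V := by
  classical
  let bs := Module.finBasis K V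
  have h1 : a • q.comp ψ ψ = c • q := by
    ext x y
    exact h x y
  have h2 := congrArg (fun w => (LinearMap.BilinForm.toMatrix bs w).det) h1
  simp only [map_smul, Matrix.det_smul, LinearMap.BilinForm.toMatrix_comp bs bs q ψ ψ,
    Matrix.det_mul, Matrix.det_transpose, Fintype.card_fin] at h2
  have h3 : (LinearMap.BilinForm.toMatrix bs q).det ≠ 0 := by
    rw [← LinearMap.BilinForm.nondegenerate_iff_det_ne_zero bs]
    exact ⟨hq, fun y hy => hq y fun x => by rw [hs]; exact hy x⟩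
  rw [LinearMap.det_toMatrix] at h2
  refine mul_right_cancel₀ h3 ?_
  linear_combination h2

/-- The factor of the similitude is a square if the spaces `H^2` are isometric of odd dimension. -/
theorem square_of_odd_rank (hA : IsPoincareAlgebra G n tr) (hB : IsPoincareAlgebra G' n' tr')
    (D : TwistedData hX hY) (hodd : Odd (Module.finrank K (G 2))) (hI : IsometricH2 hX hY) :
    ∃ r : K, r ^ 2 = D.c := by
  have := hA.finite
  obtain ⟨p, r, t, hp⟩ := exists_move' hA hB D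
  obtain ⟨c₀, s, s', hc₀, hs, hiso⟩ := hp.iso hA hB
  obtain ⟨ι, hι⟩ := hI
  let T : G 2 →ₗ[K] G' 2 :=
    (s.domRestrict (G 2)).codRestrict (G' 2) (fun x => hiso.degree 2 x x.2)
  have hT : ∀ x, r ^ 2 * hY.q.lin (T x) (T x) = D.c * hX.q.lin x x := by
    intro x
    obtain ⟨y, hy, hyq⟩ := hp.form hc₀ hs hiso x
    have h1 : y = T x := Subtype.ext hy
    rw [← h1]
    exact hyq
  have hψ : ∀ x, r ^ 2 * hX.q.lin ((ι ∘ₗ T) x) ((ι ∘ₗ T) x) = D.c * hX.q.lin x x := by
    intro x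
    rw [← hT x]
    congr 1
    exact hι _ _
  have hpol : ∀ x y, r ^ 2 * hX.q.lin ((ι ∘ₗ T) x) ((ι ∘ₗ T) y) = D.c * hX.q.lin x y := by
    intro x y
    have e1 := hψ (x + y)
    have e2 := hψ x
    have e3 := hψ y
    simp only [map_add, LinearMap.add_apply] at e1
    rw [q_symm hX ((ι ∘ₗ T) y) ((ι ∘ₗ T) x), q_symm hX y x] at e1
    have h2 : (2 : K) ≠ 0 := two_ne_zero
    refine mul_left_cancel₀ h2 ?_
    linear_combination e1 - e2 - e3
  have h1 := det_similitude hX.q.lin (q_symm hX)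
    (fun x hx => hX.nondeg x trivial fun y _ => hx y) (ι ∘ₗ T) hpol
  obtain ⟨k, hk⟩ := hodd
  rw [hk] at h1
  set d := LinearMap.det (ι ∘ₗ T) with hd
  refine ⟨r ^ (2 * k + 1) * d / D.c ^ k, ?_⟩
  have h2 : D.c ^ k ≠ 0 := pow_ne_zero _ D.c_ne
  rw [div_pow, div_eq_iff (pow_ne_zero _ h2)]
  have h3 : (r ^ 2) ^ (2 * k + 1) = (r ^ (2 * k + 1)) ^ 2 := by
    rw [← pow_mul, ← pow_mul]
    congr 1
    ring
  rw [h3] at h1
  rw [mul_pow, h1]
  ring

end two

end Pool.Agent.N212.TW
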