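import Pool.Agent.N212.TW.Base

/-!
# Cohomology rings of twisted derived equivalent hyperkähler varieties: the isomorphism
(after `Pool.Agent.N180.MO.Main`)
-/

open CategoryTheory AlgebraicGeometry Finset TensorProduct

universe u v

namespace Pool.Agent.N212.TW

open Pool.Agent.N180 Pool.Agent.H914 Pool.Agent.N180.MOS Pool.Agent.N180.MO Pool.Agent.N212.TWS

variable {K A B : Type v} [Field K] [CharZero K] [Ring A] [Algebra K A] [Ring B] [Algebra K B]
  {G : ℕ → Submodule K A} {n : ℕ} {tr : A →ₗ[K] K} {G' : ℕ → Submodule K B} {n' : ℕ}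
  {tr' : B →ₗ[K] K} [Algebra K ℂ] {hX : HKData G ⊤ n} {hY : HKData G' ⊤ n'}

/-- A transformation which moves the images of `α` and `β` to the lines of `α` and `β`. -/
structure Move (D : TwistedData hX hY) (p : Module.End K B × Module.End K (Mk G')) (r t : K) :
    Prop where
  mem : p ∈ MO.spin hY.b.lin hY.R.lin
  mul : r * t = D.c
  α : p.2 (D.φ (vecα G)) = r • vecα G'
  β : p.2 (D.φ (vecβ G)) = t • vecβ G'

theorem exists_move' (hA : IsPoincareAlgebra G n tr) (hB : IsPoincareAlgebra G' n' tr')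
    (D : TwistedData hX hY) : ∃ p r t, Move D p r t := by
  have bX := hyp hX
  have bY := hyp hY
  have rY := rep_old hY.rep
  have hsim : ∀ x y, hY.b.lin (D.φ x) (D.φ y) = D.c * hX.b.lin x y := D.similitude
  have hcomm : ∀ x y z, D.c • D.u (hX.R.lin x y z) = hY.R.lin (D.φ x) (D.φ y) (D.u z) := D.comm
  have hg : Good hY.b.lin hY.R.lin (⊤ : Subalgebra K (Module.End K B)) ⊤ (D.φ (vecβ G)) := by
    intro x hx hb
    refine ⟨Algebra.mem_top, ?_⟩
    obtain ⟨x', rfl⟩ := D.surjective x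
    rw [hsim] at hb
    obtain ⟨-, h2⟩ := good_β hX hA x' trivial ((mul_eq_zero.1 hb).resolve_left D.c_ne)
    have h3 : hY.R.lin (D.φ (vecβ G)) (D.φ x') =
        D.c • (D.u ∘ₗ hX.R.lin (vecβ G) x' ∘ₗ D.v) := by
      apply LinearMap.ext
      intro y
      have h4 := hcomm (vecβ G) x' (D.v y)
      simp only [LinearMap.smul_apply, LinearMap.comp_apply, D.inverse.2 y] at h4 ⊢
      exact h4.symm
    rw [h3]
    refine IsNilpotent.smul ?_ _
    obtain ⟨m, hm⟩ := h2
    refine ⟨m, ?_⟩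
    have key : ∀ i y, ((D.u ∘ₗ hX.R.lin (vecβ G) x' ∘ₗ D.v : Module.End K B) ^ i) y =
        D.u (((hX.R.lin (vecβ G) x') ^ i) (D.v y)) := by
      intro i
      induction i with
      | zero => intro y; simp [D.inverse.2 y]
      | succ i ih =>
        intro y
        rw [pow_succ, pow_succ, Module.End.mul_apply, Module.End.mul_apply, ih]
        simp only [LinearMap.comp_apply, D.inverse.1]
    apply LinearMap.ext
    intro y
    rw [key, hm]
    simp
  obtain ⟨p, hp, r, t, hrt, hpα, hpβ⟩ := exists_move (A := ⊤) (N := ⊤) (v := D.φ (vecβ G))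
    (w := D.φ (vecα G)) rY bY trivial trivial (fun x _ h0 => nondeg_all hY x h0) (by
      obtain ⟨x, hx, hx0⟩ := hY.ample
      refine ⟨mkM 0 x 0, trivial, ?_, ?_, ?_⟩
      · rw [form_α hY, neg_zero]
      · rw [form_β hY, neg_zero]
      · rw [form_eq hY, mul_zero, sub_zero, sub_zero]
        exact hx0) (good_β hY hB)
    trivial trivial
    (by rw [hsim, bX.ββ, mul_zero]) (by rw [hsim, bX.αα, mul_zero]) D.c_ne
    (by rw [hsim, bX.αβ, mul_neg_one]) hg
  exact ⟨p, r, t, GA_spin bY.symm hp, hrt, hpα, hpβ⟩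

theorem Move.r_ne {D : TwistedData hX hY} {p : Module.End K B × Module.End K (Mk G')} {r t : K}
    (hp : Move D p r t) : r ≠ 0 := by
  rintro rfl
  have := hp.mul
  rw [zero_mul] at this
  exact D.c_ne this.symm

theorem Move.t_ne {D : TwistedData hX hY} {p : Module.End K B × Module.End K (Mk G')} {r t : K}
    (hp : Move D p r t) : t ≠ 0 := by
  rintro rfl
  have := hp.mul
  rw [mul_zero] at this
  exact D.c_ne this.symm

theorem Move.comm {D : TwistedData hX hY} {p : Module.End K B × Module.End K (Mk G')} {r t : K}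
    (hp : Move D p r t) (x y : Mk G) (z : A) : D.c • p.1 (D.u (hX.R.lin x y z)) =
      hY.R.lin (p.2 (D.φ x)) (p.2 (D.φ y)) (p.1 (D.u z)) := by
  have h7 : D.c • D.u (hX.R.lin x y z) = hY.R.lin (D.φ x) (D.φ y) (D.u z) := D.comm x y z
  have h8 := LinearMap.congr_fun (spin_act (rep_old hY.rep) (hyp hY).symm hp.mem (D.φ x)
    (D.φ y)) (D.u z)
  simp only [Module.End.mul_apply] at h8
  rw [← h8, ← h7, map_smul]

/-- The degrees are preserved. -/
theorem Move.degree (hB : IsPoincareAlgebra G' n' tr') {D : TwistedData hX hY}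
    {p : Module.End K B × Module.End K (Mk G')} {r t : K}
    (hp : Move D p r t) (i : ℕ) (x : A) (hx : x ∈ G i) : p.1 (D.u x) ∈ G' i := by
  apply mem_gr hY hB
  have h8 := hp.comm (vecβ G) (vecα G) x
  rw [hp.α, hp.β, map_smul, map_smul] at h8
  simp only [LinearMap.smul_apply, smul_smul] at h8
  rw [hp.mul] at h8
  have h9 : p.1 (D.u (hX.R.lin (vecβ G) (vecα G) x)) =
      hY.R.lin (vecβ G') (vecα G') (p.1 (D.u x)) := smul_right_injective _ D.c_ne h8
  have hd : (n : K) = (n' : K) := congrArg _ D.dim_eq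
  rw [← h9, ← map_smul, ← map_smul, degL hX i x hx, map_smul, map_smul, hd]

/-- The transformation is invertible. -/
theorem Move.inverse {D : TwistedData hX hY} {p : Module.End K B × Module.End K (Mk G')} {r t : K}
    (hp : Move D p r t) : ∃ s' : B →ₗ[K] A, (∀ x, s' (p.1 (D.u x)) = x) ∧
      ∀ y, p.1 (D.u (s' y)) = y := by
  obtain ⟨p', hp', h5, h6⟩ := spin_inv (hyp hY).symm hp.mem
  have h5a : ∀ z, p.1 (p'.1 z) = z := fun z => LinearMap.congr_fun (congrArg Prod.fst h5) z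
  have h6a : ∀ z, p'.1 (p.1 z) = z := fun z => LinearMap.congr_fun (congrArg Prod.fst h6) z
  refine ⟨D.v ∘ₗ p'.1, fun x => ?_, fun y => ?_⟩
  · rw [LinearMap.comp_apply, h6a, D.inverse.1]
  · rw [LinearMap.comp_apply, D.inverse.2, h5a]

/-- The twist by the exponential of a class. -/
theorem twisted (hA : IsPoincareAlgebra G n tr) (x : G 2) :
    ∃ w ∈ MO.spin hX.b.cx.lin hX.R.cx.lin, (∃ a : ℂ, a ≠ 0 ∧
      w.2 (1 ⊗ₜ vecβ G) = a • expH hX.b x hX.ω) ∧
      MO.Conjugates w.1 (MO.cupOps ℂ (ℂ ⊗[K] A)) (twist ((1 : ℂ) ⊗ₜ[K] (x : A)) hX.HT) := by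
  have hs : ∀ x y, hX.b.cx.at x y = hX.b.cx.at y x :=
    fun x y => formC_symm (b := hX.b.lin) hX.rep.symm x y
  obtain ⟨w₀, e₀, hw₀, ⟨a, ha, hwβ₀⟩, hwc₀⟩ := hX.verbitsky
  obtain ⟨w, hw, hw1, hw2⟩ := spin_old hs hw₀
  subst hw1
  have hC : Hyp hX.b.cx.lin (1 ⊗ₜ vecα G) (1 ⊗ₜ vecβ G) := hypC (hyp hX)
  set l : ℂ ⊗[K] Mk G := 1 ⊗ₜ vecβ G with hl
  set y : ℂ ⊗[K] Mk G := -(1 ⊗ₜ vecH x) with hy
  have h1 : hX.b.cx.lin l l = 0 := hC.ββ
  have h2 : hX.b.cx.lin l y = 0 := by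
    rw [hy, map_neg]
    change -(formC hX.b.lin (1 ⊗ₜ vecβ G) (1 ⊗ₜ vecH x)) = 0
    rw [formC_tmul]
    have := form_β hX 0 x 0
    rw [neg_zero] at this
    change hX.b.lin (vecβ G) (vecH x) = 0 at this
    rw [this, zero_smul, neg_zero]
  have h3 : hX.R.cx.lin l y = LinearMap.mulLeft ℂ ((1 : ℂ) ⊗ₜ[K] (x : A)) := by
    rw [hy, map_neg]
    change -(opC hX.R.lin (1 ⊗ₜ vecβ G) (1 ⊗ₜ vecH x)) = _
    rw [opC_one]
    have h4 : hX.R.lin (vecβ G) (vecH x) = -LinearMap.mulLeft K (x : A) := Rβ hX x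
    rw [h4, LinearMap.baseChange_neg, neg_neg]
    apply LinearMap.ext
    intro z
    induction z using TensorProduct.induction_on with
    | zero => simp
    | add y y' hy hy' => rw [map_add, map_add, hy, hy']
    | tmul c y =>
      rw [LinearMap.baseChange_tmul, LinearMap.mulLeft_apply, LinearMap.mulLeft_apply,
        Algebra.TensorProduct.tmul_mul_tmul, one_mul]
  have h5 : IsNilpotent (LinearMap.mulLeft ℂ ((1 : ℂ) ⊗ₜ[K] (x : A))) := by
    apply mulLeft_nilpotent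
    obtain ⟨m, hm⟩ := even_nilpotent hA x.2
    change (x : A) ^ m = 0 at hm
    exact ⟨m, by rw [Algebra.TensorProduct.tmul_pow, hm, TensorProduct.tmul_zero]⟩
  obtain ⟨g, hg⟩ := IsExp.of_nilpotent h5
  have hg' : MO.IsExp (hX.R.cx.lin l y) g := by rw [h3]; exact hg
  refine ⟨(g, MO.eich hX.b.cx.lin l y) * w, mul_mem (MO.mem_spin_gen hs h1 h2 hg') hw,
    ⟨a, ha, ?_⟩, ?_, ?_⟩
  · rw [Prod.snd_mul, Module.End.mul_apply, hw2, hwβ₀, map_smul]
    rw [expH, expWedge_eq]
  · rintro _ ⟨z, rfl⟩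
    obtain ⟨a', ha', h6⟩ := hwc₀.1 _ ⟨z, rfl⟩
    obtain ⟨g', h7, h8, h9⟩ := hg.inv
    refine ⟨g ∘ₗ a' ∘ₗ g', ⟨a', ha', g, hg, ?_⟩, ?_⟩
    · rw [LinearMap.comp_assoc, LinearMap.comp_assoc]
      congr 1
      change a' ∘ₗ (g' * g) = a'
      rw [h9]
      rfl
    · rw [Prod.fst_mul]
      apply LinearMap.ext
      intro y
      have h10 := LinearMap.congr_fun h6 y
      have h11 := LinearMap.congr_fun h9 (w.1 y)
      simp only [LinearMap.comp_apply, Module.End.mul_apply, Module.End.one_apply] at h10 h11 ⊢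
      rw [h11, h10]
  · rintro a'' ⟨a', ha', g₂, hg₂, h6⟩
    obtain ⟨_, ⟨z, rfl⟩, h7⟩ := hwc₀.2 _ ha'
    have h8 : g₂ = g := IsExp.unique hg₂ hg
    subst h8
    refine ⟨_, ⟨z, rfl⟩, ?_⟩
    rw [Prod.fst_mul]
    apply LinearMap.ext
    intro y
    have h10 := LinearMap.congr_fun h7 y
    have h11 := LinearMap.congr_fun h6 (w.1 y)
    simp only [LinearMap.comp_apply, Module.End.mul_apply] at h10 h11 ⊢
    rw [h10, h11]

/-- The extension of the isomorphism conjugates cup products to cup products. -/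
theorem Move.conj (hA : IsPoincareAlgebra G n tr) (hB : IsPoincareAlgebra G' n' tr')
    {D : TwistedData hX hY} {p : Module.End K B × Module.End K (Mk G')} {r t : K}
    (hp : Move D p r t) (x : ℂ ⊗[K] A) :
    ∃ z : ℂ ⊗[K] B, ∀ y, (p.1 ∘ₗ D.u).baseChange ℂ (x * y) = z * (p.1 ∘ₗ D.u).baseChange ℂ y := by
  obtain ⟨w, hw, ⟨a, ha, hwβ⟩, hwc⟩ := twisted (hX := hX) hA D.x
  obtain ⟨w', hw', ⟨a', ha', hwβ'⟩, hwc'⟩ := twisted (hX := hY) hB D.x'
  obtain ⟨t', ht', hω⟩ := D.hodge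
  have hu : Function.Surjective (D.u.baseChange ℂ) := by
    intro y
    refine ⟨D.v.baseChange ℂ y, ?_⟩
    change (D.u.baseChange ℂ ∘ₗ D.v.baseChange ℂ) y = y
    rw [← LinearMap.baseChange_comp]
    have : D.u ∘ₗ D.v = LinearMap.id := LinearMap.ext D.inverse.2
    rw [this, LinearMap.baseChange_id]
    rfl
  have hφ : Function.Surjective (D.φ.baseChange ℂ) := LinearMap.lTensor_surjective ℂ D.surjective
  have hc : algebraMap K ℂ D.c ≠ 0 := by
    rw [Ne, map_eq_zero]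
    exact D.c_ne
  have hb : ∀ x y : ℂ ⊗[K] Mk G, formC hY.b.lin (D.φ.baseChange ℂ x)
      (D.φ.baseChange ℂ y) = algebraMap K ℂ D.c * formC hX.b.lin x y := by
    intro x y
    induction x using TensorProduct.induction_on with
    | zero => simp
    | add x x' hx hx' => simp only [map_add, LinearMap.add_apply, hx, hx', mul_add]
    | tmul a x =>
      induction y using TensorProduct.induction_on with
      | zero => simp
      | add y y' hy hy' => simp only [map_add, hy, hy', mul_add]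
      | tmul c y =>
        have h1 : hY.b.lin (D.φ x) (D.φ y) = D.c * hX.b.lin x y := D.similitude x y
        rw [LinearMap.baseChange_tmul, LinearMap.baseChange_tmul, formC_tmul, formC_tmul, h1,
          mul_smul, Algebra.smul_def]
  have hR : ∀ x y : ℂ ⊗[K] Mk G,
      algebraMap K ℂ D.c • (D.u.baseChange ℂ ∘ₗ opC hX.R.lin x y) =
      opC hY.R.lin (D.φ.baseChange ℂ x) (D.φ.baseChange ℂ y) ∘ₗ D.u.baseChange ℂ := by
    intro x y
    induction x using TensorProduct.induction_on with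
    | zero => simp
    | add x x' hx hx' =>
      simp only [map_add, LinearMap.add_apply, LinearMap.comp_add, LinearMap.add_comp, smul_add,
        hx, hx']
    | tmul a x =>
      induction y using TensorProduct.induction_on with
      | zero => simp
      | add y y' hy hy' =>
        simp only [map_add, LinearMap.comp_add, LinearMap.add_comp, smul_add, hy, hy']
      | tmul c y =>
        have h1 : D.c • (D.u ∘ₗ hX.R.lin x y) = hY.R.lin (D.φ x) (D.φ y) ∘ₗ D.u := by
          apply LinearMap.ext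
          intro z
          exact D.comm x y z
        rw [LinearMap.baseChange_tmul, LinearMap.baseChange_tmul, opC_tmul, opC_tmul,
          LinearMap.comp_smul, LinearMap.smul_comp, ← LinearMap.baseChange_comp,
          ← LinearMap.baseChange_comp, ← h1, LinearMap.baseChange_smul, algebraMap_smul, smul_comm]
  have rC : MO.IsRep hY.b.cx.lin hY.R.cx.lin := isRepC (rep_old hY.rep)
  have hC : Hyp hY.b.cx.lin (1 ⊗ₜ vecα G') (1 ⊗ₜ vecβ G') := hypC (hyp hY)
  have sC : (p.1.baseChange ℂ, (p.2.baseChange ℂ)) ∈ MO.spin hY.b.cx.lin hY.R.cx.lin :=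
    spinC hp.mem
  have eβ : p.2.baseChange ℂ (D.φ.baseChange ℂ (1 ⊗ₜ vecβ G)) =
      algebraMap K ℂ t • 1 ⊗ₜ vecβ G' := by
    change p.2.baseChange ℂ (D.φ.baseChange ℂ (1 ⊗ₜ vecβ G)) =
      algebraMap K ℂ t • (1 ⊗ₜ[K] vecβ G' : ℂ ⊗[K] Mk G')
    rw [LinearMap.baseChange_tmul, LinearMap.baseChange_tmul, hp.β, TensorProduct.tmul_smul]
    exact (algebraMap_smul ℂ t (1 ⊗ₜ[K] vecβ G' : ℂ ⊗[K] Mk G')).symm
  obtain ⟨z, hz⟩ := core (b := hX.b.cx.lin) (R := hX.R.cx.lin) rC hC (cent hY hB)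
    (fun g hg hgc => hY.automorphism g.1 g.2 (spin_new (hC.symm) hg) hgc)
    hw ha hwβ hwc hw' ha' hwβ' hwc' hu hφ hc hb hR ht' hω
    D.contractions sC (r := algebraMap K ℂ t) (by rw [Ne, map_eq_zero]; exact hp.t_ne) eβ x
  refine ⟨z, fun y => ?_⟩
  have h4 := hz y
  have h5 : ∀ y, (p.1 ∘ₗ D.u).baseChange ℂ y = p.1.baseChange ℂ (D.u.baseChange ℂ y) := by
    intro y
    change (p.1 ∘ₗ D.u).baseChange ℂ y = p.1.baseChange ℂ (D.u.baseChange ℂ y)
    rw [LinearMap.baseChange_comp]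
    rfl
  rw [h5, h5]
  exact h4

/-- The isomorphism is multiplicative up to a scalar. -/
theorem Move.iso (hA : IsPoincareAlgebra G n tr) (hB : IsPoincareAlgebra G' n' tr')
    {D : TwistedData hX hY} {p : Module.End K B × Module.End K (Mk G')} {r t : K}
    (hp : Move D p r t) : ∃ (c₀ : K) (s : A →ₗ[K] B) (s' : B →ₗ[K] A), c₀ ≠ 0 ∧
      (∀ x, p.1 (D.u x) = c₀ • s x) ∧ IsGradedRingIso G G' s s' := by
  obtain ⟨s', h1, h2⟩ := hp.inverse
  have hdeg := hp.degree hB
  have hcore := hp.conj hA hB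
  set S : A →ₗ[K] B := p.1 ∘ₗ D.u with hS
  obtain ⟨c₀, hc₀, hS1⟩ : ∃ c₀ : K, c₀ ≠ 0 ∧ S 1 = c₀ • 1 := by
    have h3 := hdeg 0 1 hA.one_mem
    rw [hB.gr_zero, Submodule.mem_span_singleton] at h3
    obtain ⟨c₀, hc₀⟩ := h3
    by_cases h4 : c₀ = 0
    · have h5 : (1 : A) = 0 := by
        rw [← h1 1, ← hc₀, h4, zero_smul, map_zero]
      have h6 : (1 : B) = 0 := by
        have h7 : s' (1 : B) = 0 := by
          rw [← mul_one (s' 1), h5, mul_zero]
        rw [← h2 1, h7, map_zero, map_zero]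
      refine ⟨1, one_ne_zero, ?_⟩
      rw [← mul_one (S 1), h6, mul_zero, smul_zero]
    · exact ⟨c₀, h4, hc₀.symm⟩
  have hmul : ∀ x y, c₀ • S (x * y) = S x * S y := by
    intro x y
    obtain ⟨z, hz⟩ : ∃ z : ℂ ⊗[K] B, ∀ y : ℂ ⊗[K] A,
      S.baseChange ℂ ((1 ⊗ₜ x) * y) = z * S.baseChange ℂ y := hcore (1 ⊗ₜ[K] x : ℂ ⊗[K] A)
    have e1 := hz 1
    rw [mul_one, LinearMap.baseChange_tmul, Algebra.TensorProduct.one_def,
      LinearMap.baseChange_tmul, hS1, TensorProduct.tmul_smul, mul_smul_comm,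
      ← Algebra.TensorProduct.one_def, mul_one] at e1
    have e2 := hz (1 ⊗ₜ y)
    rw [Algebra.TensorProduct.tmul_mul_tmul, mul_one, LinearMap.baseChange_tmul,
      LinearMap.baseChange_tmul] at e2
    have e3 : (1 : ℂ) ⊗ₜ[K] (c₀ • S (x * y)) = (1 : ℂ) ⊗ₜ[K] (S x * S y) := by
      rw [TensorProduct.tmul_smul, e2, ← smul_mul_assoc, ← e1,
        Algebra.TensorProduct.tmul_mul_tmul, mul_one]
    exact Algebra.TensorProduct.includeRight_injective (R := K) (A := ℂ) (B := B)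
      (algebraMap K ℂ).injective e3
  refine ⟨c₀, c₀⁻¹ • S, c₀ • s', hc₀, ?_, ⟨?_, ?_⟩, ?_, ?_, ?_⟩
  · intro x
    rw [LinearMap.smul_apply, smul_smul, mul_inv_cancel₀ hc₀, one_smul]
    rfl
  · intro x
    rw [LinearMap.smul_apply, LinearMap.smul_apply, map_smul, smul_smul, mul_inv_cancel₀ hc₀,
      one_smul]
    exact h1 x
  · intro y
    rw [LinearMap.smul_apply, LinearMap.smul_apply, map_smul, smul_smul, inv_mul_cancel₀ hc₀,
      one_smul]
    exact h2 y
  · intro i x hx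
    exact Submodule.smul_mem _ _ (hdeg i x hx)
  · rw [LinearMap.smul_apply, hS1, smul_smul, inv_mul_cancel₀ hc₀, one_smul]
  · intro x y
    rw [LinearMap.smul_apply, LinearMap.smul_apply, LinearMap.smul_apply, smul_mul_smul_comm,
      ← hmul, smul_smul, mul_assoc, inv_mul_cancel₀ hc₀, mul_one]

/-- **The cohomology rings of twisted derived equivalent hyperkähler varieties are isomorphic.** -/
theorem exists_ringIso (hA : IsPoincareAlgebra G n tr) (hB : IsPoincareAlgebra G' n' tr')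
    (D : TwistedData hX hY) : ∃ (s : A →ₗ[K] B) (s' : B →ₗ[K] A), IsGradedRingIso G G' s s' := by
  obtain ⟨p, r, t, hp⟩ := exists_move' hA hB D
  obtain ⟨-, s, s', -, -, h⟩ := hp.iso hA hB
  exact ⟨s, s', h⟩

end Pool.Agent.N212.TW
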