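import Pool.Agent.N212.TW.Iso

/-!
# Cohomology rings of twisted derived equivalent hyperkähler varieties: scaling the isomorphism
-/

open CategoryTheory AlgebraicGeometry Finset TensorProduct

universe u v

namespace Pool.Agent.N212.TW

open Pool.Agent.N180 Pool.Agent.H914 Pool.Agent.N180.MOS Pool.Agent.N180.MO Pool.Agent.N212.TWS

variable {K A B : Type v} [Field K] [CharZero K] [Ring A] [Algebra K A] [Ring B] [Algebra K B]
  {G : ℕ → Submodule K A} {n : ℕ} {tr : A →ₗ[K] K} {G' : ℕ → Submodule K B} {n' : ℕ}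
  {tr' : B →ₗ[K] K} [Algebra K ℂ]

section one

variable (h : HKData G ⊤ n)

include h

omit [CharZero K] in
lemma deg_proj (hA : IsPoincareAlgebra G n tr) (j : ℕ) (y : A) : proj hA.isInternal j
    ((2 : K) • h.R.lin (vecβ G) (vecα G) y) = ((j : K) - n) • proj hA.isInternal j y := by
  refine gr_induction hA.isInternal (p := fun y => proj hA.isInternal j
    ((2 : K) • h.R.lin (vecβ G) (vecα G) y) =
    ((j : K) - n) • proj hA.isInternal j y) ?_ ?_ y
  · intro l y hy
    rw [degL h l y hy, map_smul]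
    by_cases hl : l = j
    · subst hl; rfl
    · rw [proj_ne _ hy hl, smul_zero, smul_zero]
  · intro a b ha hb
    rw [map_add, smul_add, map_add, ha, hb, map_add, smul_add]

/-- The operators `R α x` lower the degree by two. -/
lemma lower (hA : IsPoincareAlgebra G n tr) {x : Mk G} (hx : h.b.lin (vecα G) x = 0) {i : ℕ}
    {z : A} (hz : z ∈ G i) : (2 ≤ i → h.R.lin (vecα G) x z ∈ G (i - 2)) ∧
      (i < 2 → h.R.lin (vecα G) x z = 0) := by
  have hr := rep_old h.rep
  have hb := hyp h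
  have e1 := hr.lie (vecβ G) (vecα G) (vecα G) x
  have e2 : MO.wedge h.b.lin (vecβ G) (vecα G) (vecα G) = -vecα G := by
    rw [MO.wedge_apply, hb.βα, hb.αα, zero_smul, sub_zero, neg_smul, one_smul]
  have e3 : h.R.lin (vecα G) (MO.wedge h.b.lin (vecβ G) (vecα G) x) = 0 := by
    rw [MO.wedge_apply, hx, zero_smul, sub_zero, map_smul, hr.alt, smul_zero]
  rw [e2, e3, add_zero, map_neg, LinearMap.neg_apply] at e1
  have e4 := LinearMap.congr_fun e1 z
  simp only [LinearMap.sub_apply, Module.End.mul_apply, LinearMap.neg_apply] at e4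
  have e5 : (2 : K) • h.R.lin (vecβ G) (vecα G) (h.R.lin (vecα G) x z) =
      ((i : K) - 2 - n) • h.R.lin (vecα G) x z := by
    have e6 : h.R.lin (vecβ G) (vecα G) (h.R.lin (vecα G) x z) =
        h.R.lin (vecα G) x (h.R.lin (vecβ G) (vecα G) z) - h.R.lin (vecα G) x z := by
      rw [sub_eq_add_neg, ← e4]
      abel
    rw [e6, smul_sub, ← map_smul, degL h i z hz, map_smul, ← sub_smul]
    congr 1
    ring
  constructor
  · intro hi
    apply mem_gr h hA
    rw [e5, Nat.cast_sub hi]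
    push_cast
    rfl
  · intro hi
    apply eq_zero_of_proj hA
    intro j
    have e6 := deg_proj h hA j (h.R.lin (vecα G) x z)
    rw [e5, map_smul, ← sub_eq_zero, ← sub_smul] at e6
    refine (smul_eq_zero.1 e6).resolve_left ?_
    intro e7
    have e8 : (i : K) = ((j + 2 : ℕ) : K) := by
      push_cast
      linear_combination e7
    have e9 : i = j + 2 := by exact_mod_cast e8
    omega

lemma good_α (hA : IsPoincareAlgebra G n tr) :
    Good h.b.lin h.R.lin (⊤ : Subalgebra K (Module.End K A)) ⊤ (vecα G) := by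
  intro x _ hx
  refine ⟨Algebra.mem_top, n + 1, ?_⟩
  have key : ∀ m i, ∀ z ∈ G i, i < 2 * m → ((h.R.lin (vecα G) x) ^ m) z = 0 := by
    intro m
    induction m with
    | zero => intro i z _ hi; omega
    | succ m ih =>
      intro i z hz hi
      rw [pow_succ, Module.End.mul_apply]
      obtain ⟨h1, h2⟩ := lower h hA hx hz
      rcases lt_or_ge i 2 with h3 | h3
      · rw [h2 h3, map_zero]
      · exact ih _ _ (h1 h3) (by omega)
  apply LinearMap.ext
  intro z
  refine gr_induction hA.isInternal (p := fun z => ((h.R.lin (vecα G) x) ^ (n + 1)) z =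
    (0 : Module.End K A) z) ?_ ?_ z
  · intro i z hz
    rw [LinearMap.zero_apply]
    rcases lt_or_ge (2 * n) i with h1 | h1
    · rw [hA.gr_eq_bot i h1, Submodule.mem_bot] at hz
      rw [hz, map_zero]
    · exact key _ i z hz (by omega)
  · intro a b ha hb
    rw [map_add, map_add, ha, hb]

/-- A transformation exchanging the lines of `α` and `β`. -/
lemma exists_flip (hA : IsPoincareAlgebra G n tr) {y : G 2} (hy : h.q.lin y y ≠ 0) :
    ∃ f ∈ MO.spin h.b.lin h.R.lin, f.2 (vecα G) = (h.q.lin y y / 2) • vecβ G ∧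
      f.2 (vecβ G) = (2 / h.q.lin y y) • vecα G := by
  have hb := hyp h
  have hs := hb.symm
  set q := h.q.lin y y with hq
  set Y : Mk G := mkM 0 y 0 with hY
  have hy1 : h.b.lin (vecα G) Y = 0 := by rw [hY, form_α h, neg_zero]
  have hy2 : h.b.lin (vecβ G) Y = 0 := by rw [hY, form_β h, neg_zero]
  have hqq : h.b.lin Y Y = q := by rw [hY, form_eq h, mul_zero, sub_zero, sub_zero]
  have f1 : h.b.lin (vecα G) ((-2 / q) • Y) = 0 := by rw [map_smul, hy1, smul_zero]
  obtain ⟨g2, hg2⟩ := IsExp.of_nilpotent (good_β h hA Y trivial hy2).2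
  obtain ⟨g3, hg3⟩ := IsExp.of_nilpotent (good_α h hA _ trivial f1).2
  set m : Module.End K A × Module.End K (Mk G) :=
    (g3, MO.eich h.b.lin (vecα G) ((-2 / q) • Y)) * (g2, MO.eich h.b.lin (vecβ G) Y) with hm
  have hms : m ∈ MO.spin h.b.lin h.R.lin :=
    mul_mem (mem_spin_gen hs hb.αα f1 hg3) (mem_spin_gen hs hb.ββ hy2 hg2)
  have hmα : m.2 (vecα G) = (q / 2) • vecβ G := by
    rw [hm, Prod.snd_mul, Module.End.mul_apply]
    have k1 : MO.eich h.b.lin (vecβ G) Y (vecα G) = vecα G - Y + (q / 2) • vecβ G := by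
      rw [eich_apply, hb.βα, hs Y (vecα G), hy1, hqq]
      module
    have k2 : MO.eich h.b.lin (vecα G) ((-2 / q) • Y) (vecα G) = vecα G := by
      rw [eich_apply, hb.αα, hs _ (vecα G), f1]
      simp
    have k3 : MO.eich h.b.lin (vecα G) ((-2 / q) • Y) Y = Y + (2 : K) • vecα G := by
      rw [eich_apply, hy1, map_smul, LinearMap.smul_apply, hqq, smul_eq_mul,
        div_mul_cancel₀ _ hy]
      module
    have k4 : MO.eich h.b.lin (vecα G) ((-2 / q) • Y) (vecβ G) =
        vecβ G + (2 / q) • Y + (2 / q) • vecα G := by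
      rw [eich_apply, hb.αβ]
      simp only [map_smul, LinearMap.smul_apply, hqq, hs Y (vecβ G), hy2, smul_eq_mul]
      have h7 : (2⁻¹ : K) * (-2 / q * (-2 / q * q)) * -1 = -(2 / q) := by field_simp
      rw [h7]
      module
    show MO.eich h.b.lin (vecα G) ((-2 / q) • Y) (MO.eich h.b.lin (vecβ G) Y (vecα G)) = _
    rw [k1, map_add, map_sub, map_smul, k2, k3, k4, smul_add, smul_add, smul_smul, smul_smul]
    have h8 : q / 2 * (2 / q) = 1 := by field_simp
    rw [h8]
    module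
  have hm1 : h.b.lin (m.2 (vecβ G)) (m.2 (vecβ G)) = 0 := by
    rw [spin_isom hs hms, hb.ββ]
  have hm2 : h.b.lin (vecβ G) (m.2 (vecβ G)) = -(2 / q) := by
    have h1 := spin_isom hs hms (vecα G) (vecβ G)
    rw [hmα, hb.αβ, map_smul, LinearMap.smul_apply, smul_eq_mul] at h1
    field_simp
    linear_combination 2 * h1
  have hm3 : h.b.lin (vecβ G) (m.2 (vecβ G)) ≠ 0 := by
    rw [hm2]
    exact neg_ne_zero.2 (div_ne_zero two_ne_zero hy)
  obtain ⟨x, hx1, hx2, -, hx4, hx5⟩ := hb.clear (N := ⊤) hm1 hm3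
  obtain ⟨g1, hg1⟩ := IsExp.of_nilpotent (good_β h hA x trivial hx2).2
  refine ⟨(g1, MO.eich h.b.lin (vecβ G) x) * m,
    mul_mem (mem_spin_gen hs hb.ββ hx2 hg1) hms, ?_, ?_⟩
  · rw [Prod.snd_mul, Module.End.mul_apply, hmα, map_smul]
    show _ • MO.eich h.b.lin (vecβ G) x (vecβ G) = _
    rw [hx5]
  · rw [Prod.snd_mul, Module.End.mul_apply]
    show MO.eich h.b.lin (vecβ G) x (m.2 (vecβ G)) = _
    rw [hx4, hm2, neg_neg]

/-- A transformation scaling `α` and `β`. -/
lemma exists_scale (hA : IsPoincareAlgebra G n tr) {x y : G 2} (hx : h.q.lin x x ≠ 0)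
    (hy : h.q.lin y y ≠ 0) : ∃ f ∈ MO.spin h.b.lin h.R.lin,
      f.2 (vecα G) = (h.q.lin y y / h.q.lin x x) • vecα G ∧
      f.2 (vecβ G) = (h.q.lin x x / h.q.lin y y) • vecβ G := by
  obtain ⟨f, hf, f1, f2⟩ := exists_flip h hA hx
  obtain ⟨g, hg, g1, g2⟩ := exists_flip h hA hy
  refine ⟨f * g, mul_mem hf hg, ?_, ?_⟩
  · rw [Prod.snd_mul, Module.End.mul_apply, g1, map_smul, f2, smul_smul]
    congr 1
    field_simp
  · rw [Prod.snd_mul, Module.End.mul_apply, g2, map_smul, f1, smul_smul]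
    congr 1
    field_simp

omit [CharZero K] in
lemma q_symm (x y : G 2) : h.q.lin x y = h.q.lin y x := by
  have h1 := (hyp h).symm (mkM 0 x 0) (mkM 0 y 0)
  rw [form_eq h, form_eq h] at h1
  simpa using h1

/-- If there is an isotropic class then all ratios are possible. -/
lemma exists_ratio {e : G 2} (he : e ≠ 0) (he' : h.q.lin e e = 0) {ρ : K} (hρ : ρ ≠ 0) :
    ∃ x y : G 2, h.q.lin x x ≠ 0 ∧ h.q.lin y y ≠ 0 ∧ h.q.lin y y / h.q.lin x x = ρ := by
  obtain ⟨x, -, hx⟩ := h.ample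
  change h.q.lin x x ≠ 0 at hx
  obtain ⟨z, hz⟩ : ∃ z : G 2, h.q.lin e z ≠ 0 := by
    by_contra hcon
    push Not at hcon
    exact he (h.nondeg e trivial fun y _ => hcon y)
  have h2 : (2 : K) ≠ 0 := two_ne_zero
  set s := (ρ * h.q.lin x x - h.q.lin z z) / (2 * h.q.lin e z) with hs
  have h1 : h.q.lin (z + s • e) (z + s • e) = ρ * h.q.lin x x := by
    simp only [map_add, map_smul, LinearMap.add_apply, LinearMap.smul_apply, smul_eq_mul, he',
      q_symm h z e]
    rw [hs]
    field_simp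
    ring
  refine ⟨x, z + s • e, hx, ?_, ?_⟩
  · rw [h1]
    exact mul_ne_zero hρ hx
  · rw [h1, mul_div_assoc, div_self hx, mul_one]

end one

section two

variable {hX : HKData G ⊤ n} {hY : HKData G' ⊤ n'}

/-- A transformation with prescribed scaling. -/
theorem exists_move_scaled (hA : IsPoincareAlgebra G n tr) (hB : IsPoincareAlgebra G' n' tr')
    (D : TwistedData hX hY) {e : G' 2} (he : e ≠ 0) (he' : hY.q.lin e e = 0) {r : K}
    (hr : r ≠ 0) : ∃ p t, Move D p r t := by
  obtain ⟨p, r₀, t, hp⟩ := exists_move' hA hB D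
  obtain ⟨x, y, hx, hy, hxy⟩ := exists_ratio hY he he' (div_ne_zero hr hp.r_ne)
  obtain ⟨f, hf, f1, f2⟩ := exists_scale hY hB hx hy
  have hr₀ := hp.r_ne
  have hxy' : hY.q.lin x x / hY.q.lin y y = r₀ / r := by
    rw [← inv_div, hxy, inv_div]
  rw [hxy] at f1
  rw [hxy'] at f2
  refine ⟨f * p, t * (r₀ / r), mul_mem hf hp.mem, ?_, ?_, ?_⟩
  · have := hp.mul
    field_simp
    linear_combination this
  · rw [Prod.snd_mul, Module.End.mul_apply, hp.α, map_smul, f1, smul_smul]
    congr 1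
    field_simp
  · rw [Prod.snd_mul, Module.End.mul_apply, hp.β, map_smul, f2, smul_smul]

/-- The effect on the Beauville-Bogomolov forms. -/
theorem Move.form {D : TwistedData hX hY} {p : Module.End K B × Module.End K (Mk G')} {r t : K}
    (hp : Move D p r t) {c₀ : K} {s : A →ₗ[K] B} {s' : B →ₗ[K] A} (hc₀ : c₀ ≠ 0)
    (hs : ∀ x, p.1 (D.u x) = c₀ • s x) (hiso : IsGradedRingIso G G' s s') (x : G 2) :
    ∃ y : G' 2, (y : B) = s x ∧ r ^ 2 * hY.q.lin y y = D.c * hX.q.lin x x := by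
  have bX := hyp hX
  have bY := hyp hY
  have hsim : ∀ x y, hY.b.lin (D.φ x) (D.φ y) = D.c * hX.b.lin x y := D.similitude
  have hi := spin_isom (b := hY.b.lin) bY.symm hp.mem
  set z := p.2 (D.φ (mkM 0 x 0)) with hz
  have h1 : hY.b.lin (vecα G') z = 0 := by
    have h1 := hi (D.φ (vecα G)) (D.φ (mkM 0 x 0))
    rw [hsim, form_α hX, neg_zero, mul_zero, hp.α, map_smul, LinearMap.smul_apply,
      smul_eq_mul] at h1
    exact (mul_eq_zero.1 h1).resolve_left hp.r_ne
  have h2 : hY.b.lin (vecβ G') z = 0 := by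
    have h1 := hi (D.φ (vecβ G)) (D.φ (mkM 0 x 0))
    rw [hsim, form_β hX, neg_zero, mul_zero, hp.β, map_smul, LinearMap.smul_apply,
      smul_eq_mul] at h1
    exact (mul_eq_zero.1 h1).resolve_left hp.t_ne
  have h3 := split hY z
  rw [h1, h2, zero_smul, zero_smul, add_zero, add_zero] at h3
  set y := prH G' z with hy
  have h3' : z = mkM 0 y 0 := h3.symm
  have h4 : hY.q.lin y y = D.c * hX.q.lin x x := by
    have h5 := hi (D.φ (mkM 0 x 0)) (D.φ (mkM 0 x 0))
    rw [hsim, ← hz, h3', form_eq hY, form_eq hX] at h5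
    simpa using h5
  have h6 := hp.comm (mkM 0 x 0) (vecβ G) 1
  rw [← hz, hp.β, h3', map_smul] at h6
  have h7 : hX.R.lin (mkM 0 x 0) (vecβ G) 1 = (x : A) := by
    have := hX.cup x 1
    rw [mul_one] at this
    exact this
  have h8 : hY.R.lin (mkM 0 y 0) (vecβ G') (p.1 (D.u 1)) = (y : B) * p.1 (D.u 1) := hY.cup y _
  rw [h7, LinearMap.smul_apply, h8, hs, hs, hiso.one] at h6
  -- `c c₀ s x = t c₀ y`
  have h9 : s x = r⁻¹ • (y : B) := by
    have h10 : (D.c * c₀) • s x = (t * c₀) • (y : B) := by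
      rw [mul_smul, h6, mul_smul_comm, mul_one, smul_smul]
    have h11 : D.c * c₀ ≠ 0 := mul_ne_zero D.c_ne hc₀
    have h12 : s x = (D.c * c₀)⁻¹ • ((D.c * c₀) • s x) := by
      rw [smul_smul, inv_mul_cancel₀ h11, one_smul]
    rw [h12, h10, smul_smul]
    congr 1
    have := hp.mul
    have h13 := hp.r_ne
    have h14 := hp.t_ne
    rw [← this]
    field_simp
  refine ⟨r⁻¹ • y, ?_, ?_⟩
  · rw [h9]
    rfl
  · rw [map_smul, map_smul, LinearMap.smul_apply, h4, smul_eq_mul, smul_eq_mul]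
    have := hp.r_ne
    field_simp

end two

end Pool.Agent.N212.TW
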